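import Pool.Agent.V1173.Fock.RadialSum

/-!
# MP_bbe01f_an : radial-derivative characterisation of Fock spaces
-/

open MeasureTheory Metric Set
open scoped ENNReal

namespace Pool.Agent.Results.MP_bbe01f_an.RadialFock

open Pool.Agent.V1173.Fock

/-- `|z|² = |z₁|² + ⋯ + |zₙ|²`. -/
noncomputable def sqNorm {n : ℕ} (z : Fin n → ℂ) : ℝ := ∑ i, ‖z i‖ ^ 2

/-- `g` lies in `L^p_α`: `g(z) e^{-α|z|²/2}` is in `L^p(ℂⁿ, dv)`. -/
def InLp {n : ℕ} (α : ℝ) (p : ℝ≥0∞) (g : (Fin n → ℂ) → ℂ) : Prop :=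
  MemLp (fun z => g z * (Real.exp (-(α * sqNorm z / 2)) : ℂ)) p volume

/-- The radial derivative `Rf(z) = ∑ z_k ∂f/∂z_k (z)`. -/
noncomputable def radialDeriv {n : ℕ} (f : (Fin n → ℂ) → ℂ) (z : Fin n → ℂ) : ℂ :=
  ∑ k, z k * fderiv ℂ f z (Pi.single k 1)

theorem radialDeriv_eq {n : ℕ} (f : (Fin n → ℂ) → ℂ) : radialDeriv f = rad f := by
  funext z
  unfold radialDeriv rad
  have h1 : fderiv ℂ f z z = fderiv ℂ f z (∑ k, z k • (Pi.single k (1 : ℂ) : Fin n → ℂ)) := by
    congr 1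
    funext i
    simp [Finset.sum_apply, Pi.single_apply]
  rw [h1, map_sum]
  refine Finset.sum_congr rfl fun k _ => ?_
  rw [map_smul, smul_eq_mul]

theorem analytic_rad {n : ℕ} {f : (Fin n → ℂ) → ℂ} (hf : AnalyticOnNhd ℂ f univ) :
    AnalyticOnNhd ℂ (rad f) univ := by
  rw [← radialDeriv_eq]
  unfold radialDeriv
  refine Finset.analyticOnNhd_fun_sum _ fun k _ => ?_
  refine AnalyticOnNhd.mul ?_ ?_
  · exact fun z _ => (ContinuousLinearMap.proj (R := ℂ) (φ := fun _ : Fin n => ℂ) k).analyticAt z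
  · have h1 := hf.fderiv
    exact (ContinuousLinearMap.apply ℂ ℂ (Pi.single k (1 : ℂ) : Fin n → ℂ)).comp_analyticOnNhd h1

theorem differentiable_of_analytic {n : ℕ} {f : (Fin n → ℂ) → ℂ}
    (hf : AnalyticOnNhd ℂ f univ) : Differentiable ℂ f := fun z =>
  (hf z (mem_univ z)).differentiableAt

theorem inLp_iff {n : ℕ} {α : ℝ} {p : ℝ≥0∞} (s : ℕ) {g : (Fin n → ℂ) → ℂ} (hg : Continuous g) :
    InLp α p (fun z => g z / ((1 + sqNorm z : ℝ) : ℂ) ^ s) ↔ MemLp (V α s g) p volume := by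
  have hpt : ∀ z, ‖g z / ((1 + sqNorm z : ℝ) : ℂ) ^ s * (Real.exp (-(α * sqNorm z / 2)) : ℂ)‖ =
      V α s g z := by
    intro z
    have h0 : 0 ≤ nsq z := nsq_nonneg z
    have h1 : sqNorm z = nsq z := rfl
    rw [norm_mul, norm_div, norm_pow, Complex.norm_real, Complex.norm_real, Real.norm_eq_abs,
      Real.norm_eq_abs, Real.abs_exp, h1, abs_of_nonneg (by linarith)]
    unfold V wgt
    ring
  have hcont : Continuous fun z : Fin n → ℂ =>
      g z / ((1 + sqNorm z : ℝ) : ℂ) ^ s * (Real.exp (-(α * sqNorm z / 2)) : ℂ) := by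
    have h1 : Continuous (sqNorm (n := n)) := continuous_nsq
    have h2 : Continuous fun z : Fin n → ℂ => g z / ((1 + sqNorm z : ℝ) : ℂ) ^ s := by
      refine hg.div (by fun_prop) fun z => ?_
      have h3 : 0 ≤ sqNorm z := nsq_nonneg z
      have h4 : (1 + sqNorm z : ℝ) ≠ 0 := by linarith
      exact pow_ne_zero _ (by exact_mod_cast h4)
    fun_prop
  constructor
  · intro h
    exact (h.norm).ae_eq (Filter.Eventually.of_forall hpt)
  · intro h
    refine h.mono hcont.aestronglyMeasurable (Filter.Eventually.of_forall fun z => ?_)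
    rw [hpt, Real.norm_eq_abs, abs_of_nonneg (V_nonneg _ _ _ _)]

theorem result (n : ℕ) (α : ℝ) (hα : 0 < α) (p : ℝ≥0∞) (hp : p ≠ 0) (N : ℕ)
    (f : (Fin n → ℂ) → ℂ) (hf : AnalyticOnNhd ℂ f univ) :
    InLp α p f ↔
      InLp α p (fun z => (radialDeriv^[N]) f z / ((1 + sqNorm z : ℝ) : ℂ) ^ N) := by
  have hanal : ∀ k : ℕ, AnalyticOnNhd ℂ ((radialDeriv^[k]) f) univ := by
    intro k
    induction k with
    | zero => exact hf
    | succ k ih =>
      rw [Function.iterate_succ_apply', radialDeriv_eq]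
      exact analytic_rad ih
  have hdiff : ∀ k : ℕ, Differentiable ℂ ((radialDeriv^[k]) f) := fun k =>
    differentiable_of_analytic (hanal k)
  have h0 : InLp α p f ↔ MemLp (V α 0 f) p volume := by
    have := inLp_iff (α := α) (p := p) 0 (hdiff 0).continuous
    simpa using this
  rw [inLp_iff N (hdiff N).continuous, h0]
  have main : ∀ N : ℕ, MemLp (V α 0 f) p volume ↔
      MemLp (V α N ((radialDeriv^[N]) f)) p volume := by
    intro N
    induction N with
    | zero => exact Iff.rfl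
    | succ N ih =>
    refine ih.trans ?_
    have hsucc : (radialDeriv^[N + 1]) f = rad ((radialDeriv^[N]) f) := by
      rw [Function.iterate_succ_apply', radialDeriv_eq]
    rw [hsucc]
    have hr : Differentiable ℂ (rad ((radialDeriv^[N]) f)) := by
      rw [← hsucc]
      exact hdiff (N + 1)
    exact ⟨fun h => memLp_rad hp hα N (hdiff N) hr.continuous h,
      fun h => memLp_of_rad hp hα N (hdiff N) hr h⟩
  exact main N

end Pool.Agent.Results.MP_bbe01f_an.RadialFock
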